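import Pool.Agent.H67.HM.Stm2

open Polynomial MeasureTheory Filter Topology

namespace HM

theorem MRG_proved (hM : S_MG2) (hN : S_NRM) : S_MRG := by
  intro p hp R m g f
  have hp1 : (1 : ℝ) ≤ p := by linarith
  have hp0 : p ≠ 0 := by linarith
  have hq : p / (p - 1) ≠ 0 := by
    have : (0 : ℝ) < p / (p - 1) := div_pos (by linarith) (by linarith)
    exact this.ne'
  have hq1 : (1 : ℝ) ≤ p / (p - 1) := by
    rw [le_div_iff₀ (by linarith)]; linarith
  induction R with
  | zero =>
    intro ε hε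
    refine ⟨0, fun _ => 0, ?_, fun i => ⟨?_, ?_⟩⟩
    · rw [map_zero, hN.zero _ hq1, Real.zero_rpow hq, Finset.sum_range_zero]
    · rw [hN.zero _ hp1, Real.zero_rpow hp0, Finset.sum_range_zero]
    · rw [Finset.sum_range_zero, mul_zero, sub_zero, hN.zero _ hp1]
      exact hε.le
  | succ R ih =>
    intro ε hε
    obtain ⟨γ₁, F₁, h1, h2⟩ := ih (ε / 2) (by linarith)
    obtain ⟨γ, F, h3, h4⟩ := hM p hp m γ₁ (g R) F₁ (f R) (ε / 2) (by linarith)
    refine ⟨γ, F, ?_, fun i => ⟨?_, ?_⟩⟩
    · rw [Finset.sum_range_succ]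
      linarith
    · rw [Finset.sum_range_succ]
      have := (h2 i).1
      have := (h4 i).1
      linarith
    · have h5 : tl γ * F i - ∑ r ∈ Finset.range (R + 1), tl (g r) * f r i =
          (tl γ * F i - tl γ₁ * F₁ i - tl (g R) * f R i) +
          (tl γ₁ * F₁ i - ∑ r ∈ Finset.range R, tl (g r) * f r i) := by
        rw [Finset.sum_range_succ]; abel
      rw [h5]
      have h6 := hN.add p (tl γ * F i - tl γ₁ * F₁ i - tl (g R) * f R i)
        (tl γ₁ * F₁ i - ∑ r ∈ Finset.range R, tl (g r) * f r i) hp1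
      have := (h2 i).2
      have := (h4 i).2
      linarith

end HM
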